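import Mathlib

open MeasureTheory

namespace Pool.Agent.R957.BnG

/-- The `2d` signed coordinate directions of `Z^d`. -/
abbrev Dir (d : ℕ) := Fin d × Bool

/-- The neighbour of `x` in direction `s`: `x + e_i` for `s = (i, true)`, `x - e_i` for
`s = (i, false)`. -/
def nbr {d : ℕ} (x : Fin d → ℤ) (s : Dir d) : Fin d → ℤ :=
  x + Pi.single s.1 (if s.2 then 1 else -1)

instance {d : ℕ} : MeasurableSpace (Finset (Dir d)) := ⊤

/-- Uniform law on the `k`-element sets of directions. -/
noncomputable def pick (k d : ℕ) (h : k ≤ 2 * d) : PMF (Finset (Dir d)) :=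
  PMF.uniformOfFinset (Finset.powersetCard k Finset.univ)
    (Finset.powersetCard_nonempty.2 (by simpa [mul_comm] using h))

/-- Law of the picks: every vertex of `Z^d` picks, independently, a uniform `k`-element set of
its `2d` neighbours (given by their directions). -/
noncomputable def law (k d : ℕ) (h : k ≤ 2 * d) : Measure ((Fin d → ℤ) → Finset (Dir d)) :=
  Measure.infinitePi (fun _ => (pick k d h).toMeasure)

/-- `y ∈ N(x)`. -/
def Picks {d : ℕ} (ω : (Fin d → ℤ) → Finset (Dir d)) (x y : Fin d → ℤ) : Prop :=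
  ∃ s ∈ ω x, y = nbr x s

/-- Open edges of the bidirectional graph. -/
def Edge {d : ℕ} (ω : (Fin d → ℤ) → Finset (Dir d)) (x y : Fin d → ℤ) : Prop :=
  Picks ω x y ∧ Picks ω y x

/-- `θ^B(k,d)`: probability that an infinite self-avoiding path of open edges starts at the
origin. -/
noncomputable def thetaB (k d : ℕ) (h : k ≤ 2 * d) : ENNReal :=
  law k d h {ω | ∃ w : ℕ → (Fin d → ℤ), w 0 = 0 ∧ Function.Injective w ∧
    ∀ n, Edge ω (w n) (w (n + 1))}

end Pool.Agent.R957.BnG
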