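import Pool.Agent.R957.BnG.Geo

open MeasureTheory ProbabilityTheory Set
open scoped ENNReal

namespace Pool.Agent.R957.BnG

variable {m : ℕ}

/-- cylinder probabilities -/
theorem cyl {ι X : Type*} [MeasurableSpace X] (μ : Measure X) [IsProbabilityMeasure μ] {n : ℕ}
    (φ : Fin n → ι) (hφ : Function.Injective φ) (S : Fin n → Set X)
    (hS : ∀ a, MeasurableSet (S a)) :
    (Measure.infinitePi (fun _ : ι => μ)).real {ω | ∀ a, ω (φ a) ∈ S a} = ∏ a, μ.real (S a) := by
  have hi : iIndepFun (fun (x : ι) (ω : ι → X) => ω x) (Measure.infinitePi (fun _ : ι => μ)) :=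
    iIndepFun_infinitePi (P := fun _ : ι => μ) (X := fun _ x => x) (fun _ => measurable_id)
  have hi2 : iIndepFun (fun (a : Fin n) (ω : ι → X) => ω (φ a))
      (Measure.infinitePi (fun _ : ι => μ)) := hi.precomp hφ
  have h1 := hi2.measure_inter_preimage_eq_mul Finset.univ (sets := S) (fun a _ => hS a)
  have h2 : {ω : ι → X | ∀ a, ω (φ a) ∈ S a} =
      ⋂ a ∈ Finset.univ, (fun ω : ι → X => ω (φ a)) ⁻¹' S a := by
    ext ω
    simp
  unfold Measure.real
  rw [h2, h1, ENNReal.toReal_prod]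
  apply Finset.prod_congr rfl
  intro a _
  congr 1
  have h3 := Measure.infinitePi_map_eval (fun _ : ι => μ) (φ a)
  conv_rhs => rw [← h3]
  rw [Measure.map_apply (measurable_pi_apply _) (hS a)]

/-- law for `k = d = m + 2` -/
noncomputable def P (m : ℕ) : Measure (Cfg m) := law (m + 2) (m + 2) (by omega)

/-- pick law for `k = d = m + 2` -/
noncomputable def pk (m : ℕ) : Measure (Finset (Dir (m + 2))) :=
  (pick (m + 2) (m + 2) (by omega)).toMeasure

instance : IsProbabilityMeasure (pk m) := by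
  unfold pk
  infer_instance

instance : IsProbabilityMeasure (P m) := by
  unfold P law
  infer_instance

/-- the two point probability -/
noncomputable def qq (m : ℕ) : ℝ := ((m : ℝ) + 1) / (2 * (2 * m + 3))

theorem pk_one (s : Dir (m + 2)) : (pk m).real {N | s ∈ N} = 1 / 2 := pick_one (m + 2) (by omega) s

theorem pk_two {s t : Dir (m + 2)} (h : s ≠ t) : (pk m).real {N | s ∈ N ∧ t ∈ N} = qq m := by
  have := pick_two (m + 2) (by omega) h
  unfold pk qq
  rw [this]
  push_cast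
  congr 1
  · ring
  · ring

theorem qq_le (m : ℕ) : qq m ≤ 1 / 4 := by
  unfold qq
  rw [div_le_iff₀ (by positivity)]
  have : (0 : ℝ) ≤ m := by positivity
  linarith

theorem qq_ge {m : ℕ} (hm : 1 ≤ m) : 1 / 5 ≤ qq m := by
  unfold qq
  rw [le_div_iff₀ (by positivity)]
  have : (1 : ℝ) ≤ m := by exact_mod_cast hm
  linarith

theorem single_ne (i : Fin m) : (0 : Fin m → ℤ) ≠ Pi.single i 1 := by
  intro h
  have := congrFun h i
  simp at this

theorem st_ne (v : ℤ × ℤ) (t : Bool) : v ≠ v + st t := by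
  unfold st
  intro h
  cases t
  · have := congrArg Prod.fst h
    simp at this
  · have := congrArg Prod.snd h
    simp at this

theorem det_prob (v : ℤ × ℤ) (t : Bool) (i : Fin m) :
    (P m).real (Det v t i) = qq m ^ 2 / 4 := by
  let v' := v + st t
  let e : Fin m → ℤ := Pi.single i 1
  have hvv : v ≠ v' := st_ne v t
  have h0 : (0 : Fin m → ℤ) ≠ e := single_ne i
  have hφ : Function.Injective (![V v 0, V v' 0, V v e, V v' e] : Fin 4 → Fin (m + 2) → ℤ) := by
    intro a b hab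
    fin_cases a <;> fin_cases b <;>
      first
      | rfl
      | (exfalso
         have hh := V_inj hab
         first
         | exact hvv hh.1
         | exact hvv hh.1.symm
         | exact h0 hh.2
         | exact h0 hh.2.symm)
  have hc := cyl (pk m) (![V v 0, V v' 0, V v e, V v' e] : Fin 4 → Fin (m + 2) → ℤ) hφ
    ![{N | (i.succ.succ, true) ∈ N}, {N | (i.succ.succ, true) ∈ N},
      {N | (i.succ.succ, false) ∈ N ∧ (td t, true) ∈ N},
      {N | (i.succ.succ, false) ∈ N ∧ (td t, false) ∈ N}] (fun a => by trivial)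
  have h1 : Det v t i = {ω : Cfg m | ∀ a : Fin 4,
      ω ((![V v 0, V v' 0, V v e, V v' e] : Fin 4 → Fin (m + 2) → ℤ) a) ∈
      (![{N | (i.succ.succ, true) ∈ N}, {N | (i.succ.succ, true) ∈ N},
      {N | (i.succ.succ, false) ∈ N ∧ (td t, true) ∈ N},
      {N | (i.succ.succ, false) ∈ N ∧ (td t, false) ∈ N}] :
        Fin 4 → Set (Finset (Dir (m + 2)))) a} := by
    ext ω
    constructor
    · rintro ⟨⟨a1, a2⟩, a3, a4⟩ a
      fin_cases a
      · exact a1
      · exact a2
      · exact a3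
      · exact a4
    · intro h
      exact ⟨⟨h 0, h 1⟩, h 2, h 3⟩
  rw [h1]
  refine Eq.trans hc ?_
  rw [Fin.prod_univ_four]
  simp only [Matrix.cons_val_zero, Matrix.cons_val_one, Matrix.cons_val]
  have d1 : ((i.succ.succ, false) : Dir (m + 2)) ≠ (td t, true) := by
    intro h
    have := congrArg Prod.snd h
    simp at this
  have d2 : ((i.succ.succ, false) : Dir (m + 2)) ≠ (td t, false) := by
    intro h
    have := congrArg Prod.fst h
    unfold td at this
    cases t <;> simp [Fin.ext_iff] at this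
  rw [pk_one, pk_two d1, pk_two d2]
  ring

theorem det_prob2 (v : ℤ × ℤ) (t : Bool) {i j : Fin m} (hij : i ≠ j) :
    (P m).real (Det v t i ∩ Det v t j) = qq m ^ 6 := by
  let v' := v + st t
  let e : Fin m → ℤ := Pi.single i 1
  let f : Fin m → ℤ := Pi.single j 1
  have hvv : v ≠ v' := st_ne v t
  have h0 : (0 : Fin m → ℤ) ≠ e := single_ne i
  have h0' : (0 : Fin m → ℤ) ≠ f := single_ne j
  have hef : e ≠ f := by
    intro h
    have := congrFun h i
    simp only [e, f, Pi.single_eq_same] at this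
    rw [Pi.single_eq_of_ne hij] at this
    exact one_ne_zero this
  have hφ : Function.Injective
      (![V v 0, V v' 0, V v e, V v' e, V v f, V v' f] : Fin 6 → Fin (m + 2) → ℤ) := by
    intro a b hab
    fin_cases a <;> fin_cases b <;>
      first
      | rfl
      | (exfalso
         have hh := V_inj hab
         first
         | exact hvv hh.1
         | exact hvv hh.1.symm
         | exact h0 hh.2
         | exact h0 hh.2.symm
         | exact h0' hh.2
         | exact h0' hh.2.symm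
         | exact hef hh.2
         | exact hef hh.2.symm)
  have hc := cyl (pk m)
    (![V v 0, V v' 0, V v e, V v' e, V v f, V v' f] : Fin 6 → Fin (m + 2) → ℤ) hφ
    ![{N | (i.succ.succ, true) ∈ N ∧ (j.succ.succ, true) ∈ N},
      {N | (i.succ.succ, true) ∈ N ∧ (j.succ.succ, true) ∈ N},
      {N | (i.succ.succ, false) ∈ N ∧ (td t, true) ∈ N},
      {N | (i.succ.succ, false) ∈ N ∧ (td t, false) ∈ N},
      {N | (j.succ.succ, false) ∈ N ∧ (td t, true) ∈ N},
      {N | (j.succ.succ, false) ∈ N ∧ (td t, false) ∈ N}] (fun a => by trivial)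
  have h1 : Det v t i ∩ Det v t j = {ω : Cfg m | ∀ a : Fin 6,
      ω ((![V v 0, V v' 0, V v e, V v' e, V v f, V v' f] : Fin 6 → Fin (m + 2) → ℤ) a) ∈
      (![{N | (i.succ.succ, true) ∈ N ∧ (j.succ.succ, true) ∈ N},
      {N | (i.succ.succ, true) ∈ N ∧ (j.succ.succ, true) ∈ N},
      {N | (i.succ.succ, false) ∈ N ∧ (td t, true) ∈ N},
      {N | (i.succ.succ, false) ∈ N ∧ (td t, false) ∈ N},
      {N | (j.succ.succ, false) ∈ N ∧ (td t, true) ∈ N},
      {N | (j.succ.succ, false) ∈ N ∧ (td t, false) ∈ N}] :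
        Fin 6 → Set (Finset (Dir (m + 2)))) a} := by
    ext ω
    constructor
    · rintro ⟨⟨⟨a1, a2⟩, a3, a4⟩, ⟨b1, b2⟩, b3, b4⟩ a
      fin_cases a
      · exact ⟨a1, b1⟩
      · exact ⟨a2, b2⟩
      · exact a3
      · exact a4
      · exact b3
      · exact b4
    · intro h
      exact ⟨⟨⟨(h 0).1, (h 1).1⟩, h 2, h 3⟩, ⟨(h 0).2, (h 1).2⟩, h 4, h 5⟩
  rw [h1]
  refine Eq.trans hc ?_
  rw [Fin.prod_univ_six]
  simp only [Matrix.cons_val_zero, Matrix.cons_val_one, Matrix.cons_val]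
  have d0 : ((i.succ.succ, true) : Dir (m + 2)) ≠ (j.succ.succ, true) := by
    intro h
    apply hij
    have := congrArg Prod.fst h
    simpa [Fin.ext_iff] using this
  have d1 : ∀ (l : Fin m), ((l.succ.succ, false) : Dir (m + 2)) ≠ (td t, true) := by
    intro l h
    have := congrArg Prod.snd h
    simp at this
  have d2 : ∀ (l : Fin m), ((l.succ.succ, false) : Dir (m + 2)) ≠ (td t, false) := by
    intro l h
    have := congrArg Prod.fst h
    unfold td at this
    cases t <;> simp [Fin.ext_iff] at this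
  rw [pk_two d0, pk_two (d1 _), pk_two (d2 _), pk_two (d1 _), pk_two (d2 _)]
  ring

theorem coord_meas {U : Set (ℤ × ℤ)} {x : Fin (m + 2) → ℤ} (hx : pl x ∈ U) (s : Dir (m + 2)) :
    MeasurableSet[⨆ x ∈ {x : Fin (m + 2) → ℤ | pl x ∈ U},
      MeasurableSpace.comap (fun ω : Cfg m => ω x) ⊤] {ω : Cfg m | s ∈ ω x} := by
  have h1 : MeasurableSpace.comap (fun ω : Cfg m => ω x) ⊤ ≤
      ⨆ x ∈ {x : Fin (m + 2) → ℤ | pl x ∈ U}, MeasurableSpace.comap (fun ω : Cfg m => ω x) ⊤ :=
    le_biSup (fun x => MeasurableSpace.comap (fun ω : Cfg m => ω x) ⊤) hx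
  exact h1 _ ⟨{N | s ∈ N}, trivial, rfl⟩

/-- sigma algebra of the columns over `U` -/
@[reducible] def Fs (m : ℕ) (U : Set (ℤ × ℤ)) : MeasurableSpace (Cfg m) :=
  ⨆ x ∈ {x : Fin (m + 2) → ℤ | pl x ∈ U}, MeasurableSpace.comap (fun ω : Cfg m => ω x) ⊤

theorem Fs_mono (U W : Set (ℤ × ℤ)) (h : U ⊆ W) : Fs m U ≤ Fs m W :=
  biSup_mono (fun _ hx => h hx)

theorem Fs_le (U : Set (ℤ × ℤ)) : Fs m U ≤ (inferInstance : MeasurableSpace (Cfg m)) := by
  unfold Fs
  refine iSup₂_le (fun x _ => ?_)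
  exact (measurable_pi_apply x).comap_le

theorem Fs_indep (U W : Set (ℤ × ℤ)) (h : Disjoint U W) : Indep (Fs m U) (Fs m W) (P m) := by
  unfold Fs
  have hi : iIndepFun (fun (x : Fin (m + 2) → ℤ) (ω : Cfg m) => ω x) (P m) :=
    iIndepFun_infinitePi (P := fun _ : Fin (m + 2) → ℤ => pk m) (X := fun _ x => x)
      (fun _ => measurable_id)
  refine indep_iSup_of_disjoint (fun x => (measurable_pi_apply x).comap_le) hi ?_
  rw [Set.disjoint_left] at h ⊢
  exact fun x hx hx' => h hx hx'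

theorem det_meas {U : Set (ℤ × ℤ)} {v : ℤ × ℤ} {t : Bool} (hv : v ∈ U) (hv' : v + st t ∈ U)
    (i : Fin m) : MeasurableSet[Fs m U] (Det v t i) := by
  have c : ∀ (x : Fin (m + 2) → ℤ) (s : Dir (m + 2)), pl x ∈ U →
      MeasurableSet[Fs m U] {ω : Cfg m | s ∈ ω x} := fun x s hx => coord_meas hx s
  unfold Det
  refine @MeasurableSet.inter _ (Fs m U) _ _ (@MeasurableSet.inter _ (Fs m U) _ _ ?_ ?_)
    (@MeasurableSet.inter _ (Fs m U) _ _ (@MeasurableSet.inter _ (Fs m U) _ _ ?_ ?_)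
      (@MeasurableSet.inter _ (Fs m U) _ _ ?_ ?_))
  · exact c _ _ hv
  · exact c _ _ hv'
  · exact c _ _ hv
  · exact c _ _ hv
  · exact c _ _ hv'
  · exact c _ _ hv'

theorem mac_meas {U : Set (ℤ × ℤ)} {v : ℤ × ℤ} {t : Bool} (hv : v ∈ U) (hv' : v + st t ∈ U) :
    MeasurableSet[Fs m U] (Mac m v t) :=
  @MeasurableSet.iUnion _ _ (Fs m U) _ _ (fun i => det_meas hv hv' i)

theorem gs_meas (v : ℤ × ℤ) : MeasurableSet[Fs m (Perc.Reg 0 v)] (gs m v) := by
  have h0 : v ∈ Perc.Reg 0 v := by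
    unfold Perc.Reg
    simp
  have h1 : ∀ t, v + st t ∈ Perc.Reg 0 v := by
    intro t
    unfold Perc.Reg st
    cases t <;> simp <;> omega
  have h2 : ∀ t, v - st t ∈ Perc.Reg 0 v := by
    intro t
    unfold Perc.Reg st
    cases t <;> simp <;> omega
  unfold gs
  refine @MeasurableSet.inter _ (Fs m _) _ _ (@MeasurableSet.inter _ (Fs m _) _ _ ?_ ?_)
    (@MeasurableSet.inter _ (Fs m _) _ _ ?_ ?_)
  · exact mac_meas h0 (h1 _)
  · exact mac_meas h0 (h1 _)
  · exact mac_meas (h2 _) (by rw [sub_add_cancel]; exact h0)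
  · exact mac_meas (h2 _) (by rw [sub_add_cancel]; exact h0)

theorem mac_bad (hm : 1 ≤ m) (v : ℤ × ℤ) (t : Bool) : (P m).real (Mac m v t)ᶜ ≤ 100 / m := by
  have hq1 := qq_le m
  have hq2 := qq_ge hm
  have hq0 : 0 ≤ qq m := by linarith
  have hmeas : ∀ i, MeasurableSet (Det v t i : Set (Cfg m)) := fun i =>
    Fs_le Set.univ _ (det_meas (mem_univ _) (mem_univ _) i)
  have h := second_moment (P m) (fun i => Det v t i) hmeas (p := qq m ^ 2 / 4) (by positivity)
    (fun i => det_prob v t i) (by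
      intro i j hij
      rw [det_prob2 v t hij]
      have : qq m ^ 2 ≤ (1 / 4) ^ 2 := pow_le_pow_left₀ hq0 hq1 2
      have h4 : 0 ≤ qq m ^ 4 := by positivity
      calc qq m ^ 6 = qq m ^ 4 * qq m ^ 2 := by ring
        _ ≤ qq m ^ 4 * (1 / 4) ^ 2 := mul_le_mul_of_nonneg_left this h4
        _ = (qq m ^ 2 / 4) ^ 2 := by ring)
  have hc : (Mac m v t)ᶜ = ⋂ i, (Det v t i)ᶜ := by
    unfold Mac
    rw [compl_iUnion]
  rw [← hc] at h
  have hm' : (0 : ℝ) < m := by exact_mod_cast hm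
  rw [le_div_iff₀ hm']
  have hp : 1 / 100 ≤ qq m ^ 2 / 4 := by nlinarith
  have h0 : 0 ≤ (P m).real (Mac m v t)ᶜ := measureReal_nonneg
  have h5 : 0 ≤ (P m).real (Mac m v t)ᶜ * m := by positivity
  nlinarith

theorem gs_bad (hm : 4000000 ≤ m) (v : ℤ × ℤ) : P m (gs m v)ᶜ ≤ 2401⁻¹ * 4⁻¹ := by
  have hm1 : 1 ≤ m := by omega
  have hsub : (gs m v)ᶜ ⊆ ((Mac m v false)ᶜ ∪ (Mac m v true)ᶜ) ∪
      ((Mac m (v - st false) false)ᶜ ∪ (Mac m (v - st true) true)ᶜ) := by
    unfold gs
    rw [compl_inter, compl_inter, compl_inter]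
  have h1 : (P m).real (gs m v)ᶜ ≤ 400 / m := by
    refine (measureReal_mono hsub).trans ?_
    refine (measureReal_union_le _ _).trans ?_
    have a1 := measureReal_union_le (μ := P m) (Mac m v false)ᶜ (Mac m v true)ᶜ
    have a2 := measureReal_union_le (μ := P m) (Mac m (v - st false) false)ᶜ
      (Mac m (v - st true) true)ᶜ
    have b1 := mac_bad hm1 v false
    have b2 := mac_bad hm1 v true
    have b3 := mac_bad hm1 (v - st false) false
    have b4 := mac_bad hm1 (v - st true) true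
    have e : (400 : ℝ) / m = 100 / m + 100 / m + (100 / m + 100 / m) := by ring
    rw [e]
    linarith
  have h2 : (400 : ℝ) / m ≤ 1 / 9604 := by
    have hm' : (4000000 : ℝ) ≤ m := by exact_mod_cast hm
    rw [div_le_div_iff₀ (by linarith) (by norm_num)]
    linarith
  have h3 : P m (gs m v)ᶜ = ENNReal.ofReal ((P m).real (gs m v)ᶜ) := by
    unfold Measure.real
    rw [ENNReal.ofReal_toReal (measure_ne_top _ _)]
  have h4 : (2401⁻¹ * 4⁻¹ : ℝ≥0∞) = ENNReal.ofReal (1 / 9604) := by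
    rw [← ENNReal.mul_inv (by norm_num) (by norm_num), one_div, ENNReal.ofReal_inv_of_pos
      (by norm_num)]
    norm_num
  rw [h3, h4]
  exact ENNReal.ofReal_le_ofReal (h1.trans h2)

theorem main (hm : 4000000 ≤ m) : 0 < thetaB (m + 2) (m + 2) (by omega) := by
  have h := Perc.percolates (P m) (Fs m) Fs_mono Fs_le Fs_indep (gs m) gs_meas (gs_bad hm)
  refine lt_of_lt_of_le h ?_
  unfold thetaB
  apply measure_mono
  intro ω hω
  exact perc_of_link hω

end Pool.Agent.R957.BnG
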