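import Pool.Agent.R957.BnG.Prob

open MeasureTheory ProbabilityTheory Set
open scoped ENNReal

namespace Pool.Agent.R957.BnG

variable {m : ℕ}

/-- vertices `(v.1, v.2, u)` -/
def V (v : ℤ × ℤ) (u : Fin m → ℤ) : Fin (m + 2) → ℤ := Fin.cons v.1 (Fin.cons v.2 u)

theorem V_inj {v v' : ℤ × ℤ} {u u' : Fin m → ℤ} (h : V v u = V v' u') : v = v' ∧ u = u' := by
  unfold V at h
  obtain ⟨h1, h2⟩ := Fin.cons_injective2 h
  obtain ⟨h3, h4⟩ := Fin.cons_injective2 h2
  exact ⟨Prod.ext h1 h3, h4⟩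

/-- planar projection -/
def pl (x : Fin (m + 2) → ℤ) : ℤ × ℤ := (x 0, x 1)

theorem pl_V (v : ℤ × ℤ) (u : Fin m → ℤ) : pl (V v u) = v := rfl

/-- planar unit steps: `false` horizontal, `true` vertical -/
def st (t : Bool) : ℤ × ℤ := if t then (0, 1) else (1, 0)

/-- planar direction index -/
def td (t : Bool) : Fin (m + 2) := if t then 1 else 0

theorem nbr_up (v : ℤ × ℤ) (i : Fin m) :
    nbr (V v 0) (i.succ.succ, true) = V v (Pi.single i 1) := by
  unfold nbr V
  funext j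
  refine Fin.cases ?_ (fun j => ?_) j
  · simp
  · refine Fin.cases ?_ (fun j => ?_) j
    · simp [Pi.single_apply, Fin.ext_iff]
    · simp [Pi.single_apply]

theorem nbr_down (v : ℤ × ℤ) (i : Fin m) :
    nbr (V v (Pi.single i 1)) (i.succ.succ, false) = V v 0 := by
  unfold nbr V
  funext j
  refine Fin.cases ?_ (fun j => ?_) j
  · simp
  · refine Fin.cases ?_ (fun j => ?_) j
    · simp [Pi.single_apply, Fin.ext_iff]
    · by_cases h : j = i <;> simp [Pi.single_apply, h]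

theorem nbr_fw (v : ℤ × ℤ) (t : Bool) (u : Fin m → ℤ) :
    nbr (V v u) (td t, true) = V (v + st t) u := by
  unfold nbr V td st
  funext j
  cases t
  · refine Fin.cases ?_ (fun j => ?_) j
    · simp
    · refine Fin.cases ?_ (fun j => ?_) j
      · simp [Pi.single_apply]
      · simp [Pi.single_apply, Fin.ext_iff]
  · refine Fin.cases ?_ (fun j => ?_) j
    · simp
    · refine Fin.cases ?_ (fun j => ?_) j
      · simp
      · simp [Pi.single_apply, Fin.ext_iff]

theorem nbr_bw (v : ℤ × ℤ) (t : Bool) (u : Fin m → ℤ) :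
    nbr (V (v + st t) u) (td t, false) = V v u := by
  unfold nbr V td st
  funext j
  cases t
  · refine Fin.cases ?_ (fun j => ?_) j
    · simp
    · refine Fin.cases ?_ (fun j => ?_) j
      · simp [Pi.single_apply]
      · simp [Pi.single_apply, Fin.ext_iff]
  · refine Fin.cases ?_ (fun j => ?_) j
    · simp
    · refine Fin.cases ?_ (fun j => ?_) j
      · simp
      · simp [Pi.single_apply, Fin.ext_iff]

/-- configurations -/
abbrev Cfg (m : ℕ) := (Fin (m + 2) → ℤ) → Finset (Dir (m + 2))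

/-- the three step detour through `e_i` from `v` to `v + st t` is open -/
def Det (v : ℤ × ℤ) (t : Bool) (i : Fin m) : Set (Cfg m) :=
  {ω | ((i.succ.succ, true) ∈ ω (V v 0) ∧ (i.succ.succ, true) ∈ ω (V (v + st t) 0)) ∧
    (((i.succ.succ, false) ∈ ω (V v (Pi.single i 1)) ∧ (td t, true) ∈ ω (V v (Pi.single i 1))) ∧
      ((i.succ.succ, false) ∈ ω (V (v + st t) (Pi.single i 1)) ∧
        (td t, false) ∈ ω (V (v + st t) (Pi.single i 1))))}

/-- the macroscopic edge from `v` to `v + st t` is open -/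
def Mac (m : ℕ) (v : ℤ × ℤ) (t : Bool) : Set (Cfg m) := ⋃ i, Det v t i

theorem Edge.symm {d : ℕ} {ω : (Fin d → ℤ) → Finset (Dir d)} {x y : Fin d → ℤ} (h : Edge ω x y) :
    Edge ω y x := ⟨h.2, h.1⟩

theorem rtg_symm {d : ℕ} {ω : (Fin d → ℤ) → Finset (Dir d)} {x y : Fin d → ℤ}
    (h : Relation.ReflTransGen (Edge ω) x y) : Relation.ReflTransGen (Edge ω) y x := by
  induction h with
  | refl => exact Relation.ReflTransGen.refl
  | tail _ h2 ih => exact Relation.ReflTransGen.head h2.symm ih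

theorem mac_conn {v : ℤ × ℤ} {t : Bool} {ω : Cfg m} (h : ω ∈ Mac m v t) :
    Relation.ReflTransGen (Edge ω) (V v 0) (V (v + st t) 0) := by
  obtain ⟨i, ⟨a, b⟩, ⟨c, c'⟩, d, d'⟩ := mem_iUnion.1 h
  have e1 : Edge ω (V v 0) (V v (Pi.single i 1)) :=
    ⟨⟨_, a, (nbr_up v i).symm⟩, ⟨_, c, (nbr_down v i).symm⟩⟩
  have e2 : Edge ω (V v (Pi.single i 1)) (V (v + st t) (Pi.single i 1)) :=
    ⟨⟨_, c', (nbr_fw v t _).symm⟩, ⟨_, d', (nbr_bw v t _).symm⟩⟩
  have e3 : Edge ω (V (v + st t) (Pi.single i 1)) (V (v + st t) 0) :=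
    ⟨⟨_, d, (nbr_down _ i).symm⟩, ⟨_, b, (nbr_up _ i).symm⟩⟩
  exact ((Relation.ReflTransGen.single e1).tail e2).tail e3

/-- good planar sites -/
def gs (m : ℕ) (v : ℤ × ℤ) : Set (Cfg m) :=
  (Mac m v false ∩ Mac m v true) ∩ (Mac m (v - st false) false ∩ Mac m (v - st true) true)

theorem good_adj {u v : ℤ × ℤ} {ω : Cfg m} (huv : Perc.Adj u v) (hu : ω ∈ gs m u)
    (hv : ω ∈ gs m v) : Relation.ReflTransGen (Edge ω) (V u 0) (V v 0) := by
  have key : ∀ a b : ℤ × ℤ, ∀ t : Bool, b = a + st t → ω ∈ gs m a →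
      Relation.ReflTransGen (Edge ω) (V a 0) (V b 0) := by
    intro a b t hab ha
    rw [hab]
    apply mac_conn
    cases t
    · exact ha.1.1
    · exact ha.1.2
  rcases huv with ⟨e, e' | e'⟩ | ⟨e, e' | e'⟩
  · exact rtg_symm (key v u true (by unfold st; ext <;> simp [e, e']) hv)
  · exact key u v true (by unfold st; ext <;> simp [e, e']) hu
  · exact rtg_symm (key v u false (by unfold st; ext <;> simp [e, e']) hv)
  · exact key u v false (by unfold st; ext <;> simp [e, e']) hu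

theorem link_conn {v : ℤ × ℤ} {ω : Cfg m} (h : Perc.Link (fun v => ω ∈ gs m v) (0, 0) v) :
    Relation.ReflTransGen (Edge ω) 0 (V v 0) := by
  have h0 : (0 : Fin (m + 2) → ℤ) = V (0, 0) 0 := by
    funext j
    refine Fin.cases rfl (fun j => ?_) j
    refine Fin.cases rfl (fun j => rfl) j
  rw [h0]
  unfold Perc.Link at h
  induction h with
  | refl => exact Relation.ReflTransGen.refl
  | tail _ h2 ih => exact ih.trans (good_adj h2.1 h2.2.1 h2.2.2)

theorem edge_finite {d : ℕ} (ω : (Fin d → ℤ) → Finset (Dir d)) (x : Fin d → ℤ) :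
    {y | Edge ω x y}.Finite := by
  refine ((ω x).finite_toSet.image (fun s => nbr x s)).subset ?_
  rintro y ⟨⟨s, hs, rfl⟩, _⟩
  exact ⟨s, hs, rfl⟩

theorem perc_of_link {ω : Cfg m}
    (h : {v : ℤ × ℤ | Perc.Link (fun v => ω ∈ gs m v) (0, 0) v}.Infinite) :
    ∃ w : ℕ → (Fin (m + 2) → ℤ), w 0 = 0 ∧ Function.Injective w ∧
      ∀ n, Edge ω (w n) (w (n + 1)) := by
  apply Perc.konig (edge_finite ω)
  have h1 : (fun v : ℤ × ℤ => (V v 0 : Fin (m + 2) → ℤ)) ''
      {v : ℤ × ℤ | Perc.Link (fun v => ω ∈ gs m v) (0, 0) v} ⊆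
      {y | Relation.ReflTransGen (Edge ω) 0 y} := by
    rintro y ⟨v, hv, rfl⟩
    exact link_conn hv
  refine Set.Infinite.mono h1 (h.image ?_)
  intro a _ b _ hab
  exact (V_inj hab).1

end Pool.Agent.R957.BnG
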