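import Pool.Agent.R957.BnG.Defs
import Pool.Agent.R957.Perc.RenormProb
import Pool.Agent.R957.Perc.Konig

open MeasureTheory ProbabilityTheory Set
open scoped ENNReal

namespace Pool.Agent.R957.BnG

/-- second moment bound -/
theorem second_moment {Ω : Type*} [MeasurableSpace Ω] (P : Measure Ω) [IsProbabilityMeasure P]
    {m : ℕ} (E : Fin m → Set Ω) (hE : ∀ i, MeasurableSet (E i)) {p : ℝ} (hp : 0 ≤ p)
    (h1 : ∀ i, P.real (E i) = p) (h2 : ∀ i j, i ≠ j → P.real (E i ∩ E j) ≤ p ^ 2) :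
    P.real (⋂ i, (E i)ᶜ) * (m * p) ≤ 1 := by
  classical
  set M : ℝ := m * p with hM
  have hM0 : 0 ≤ M := by positivity
  rcases hM0.eq_or_lt with h0 | hMpos
  · rw [← h0, mul_zero]
    exact zero_le_one
  let X : Ω → ℝ := fun ω => ∑ i, (E i).indicator (fun _ => (1 : ℝ)) ω
  have hXX : ∀ ω, (X ω - M) ^ 2 = ∑ i, ∑ j, (E i ∩ E j).indicator (fun _ => (1 : ℝ)) ω -
      2 * M * ∑ i, (E i).indicator (fun _ => (1 : ℝ)) ω + M ^ 2 := by
    intro ω
    have : X ω ^ 2 = ∑ i, ∑ j, (E i ∩ E j).indicator (fun _ => (1 : ℝ)) ω := by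
      simp only [X]
      rw [sq, Finset.sum_mul_sum]
      apply Finset.sum_congr rfl
      intro i _
      apply Finset.sum_congr rfl
      intro j _
      by_cases hi : ω ∈ E i <;> by_cases hj : ω ∈ E j <;> simp [hi, hj]
    rw [← this]
    simp only [X]
    ring
  have int1 : ∀ A : Set Ω, MeasurableSet A → Integrable (A.indicator (fun _ => (1 : ℝ))) P :=
    fun A hA => (integrable_const (1 : ℝ)).indicator hA
  have hint : ∀ A : Set Ω, MeasurableSet A → ∫ ω, A.indicator (fun _ => (1 : ℝ)) ω ∂P = P.real A := by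
    intro A hA
    rw [integral_indicator hA]
    simp
  have i1 : Integrable (fun ω => ∑ i, ∑ j, (E i ∩ E j).indicator (fun _ => (1 : ℝ)) ω) P :=
    integrable_finsetSum _ (fun i _ => integrable_finsetSum _ (fun j _ =>
      int1 _ ((hE i).inter (hE j))))
  have i2 : Integrable (fun ω => 2 * M * ∑ i, (E i).indicator (fun _ => (1 : ℝ)) ω) P :=
    (integrable_finsetSum _ (fun i _ => int1 _ (hE i))).const_mul _
  have hval : ∫ ω, (X ω - M) ^ 2 ∂P ≤ M := by
    simp_rw [hXX]
    have hadd := integral_add (i1.sub i2) (integrable_const (μ := P) (M ^ 2))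
    simp only [Pi.sub_apply] at hadd
    rw [hadd, integral_sub i1 i2, integral_const_mul,
      integral_finsetSum _ (fun i _ => integrable_finsetSum _ (fun j _ =>
        int1 _ ((hE i).inter (hE j)))), integral_finsetSum _ (fun i _ => int1 _ (hE i))]
    have e1 : ∀ i, ∫ ω, ∑ j, (E i ∩ E j).indicator (fun _ => (1 : ℝ)) ω ∂P ≤ p + m * p ^ 2 := by
      intro i
      rw [integral_finsetSum _ (fun j _ => int1 _ ((hE i).inter (hE j)))]
      have : ∀ j ∈ (Finset.univ : Finset (Fin m)),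
          ∫ ω, (E i ∩ E j).indicator (fun _ => (1 : ℝ)) ω ∂P ≤ (if i = j then p else 0) + p ^ 2 := by
        intro j _
        rw [hint _ ((hE i).inter (hE j))]
        by_cases hij : i = j
        · rw [if_pos hij, ← hij, inter_self, h1]
          nlinarith [sq_nonneg p]
        · rw [if_neg hij, zero_add]
          exact h2 i j hij
      refine (Finset.sum_le_sum this).trans ?_
      rw [Finset.sum_add_distrib, Finset.sum_ite_eq, if_pos (Finset.mem_univ _), Finset.sum_const,
        Finset.card_univ, Fintype.card_fin, nsmul_eq_mul]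
    have e2 : ∑ i, ∫ ω, ∑ j, (E i ∩ E j).indicator (fun _ => (1 : ℝ)) ω ∂P ≤
        m * (p + m * p ^ 2) := by
      refine (Finset.sum_le_sum (fun i _ => e1 i)).trans ?_
      rw [Finset.sum_const, Finset.card_univ, Fintype.card_fin, nsmul_eq_mul]
    have e3 : ∑ i, ∫ ω, (E i).indicator (fun _ => (1 : ℝ)) ω ∂P = M := by
      simp_rw [fun i => hint _ (hE i), h1]
      rw [Finset.sum_const, Finset.card_univ, Fintype.card_fin, nsmul_eq_mul]
    rw [e3, integral_const]
    simp only [probReal_univ, smul_eq_mul, one_mul]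
    have e4 : (m : ℝ) * (p + m * p ^ 2) = M + M ^ 2 := by rw [hM]; ring
    linarith
  have hN : MeasurableSet (⋂ i, (E i)ᶜ) := MeasurableSet.iInter (fun i => (hE i).compl)
  have hlow : P.real (⋂ i, (E i)ᶜ) * M ^ 2 ≤ ∫ ω, (X ω - M) ^ 2 ∂P := by
    have e1 : P.real (⋂ i, (E i)ᶜ) * M ^ 2 =
        ∫ ω, (⋂ i, (E i)ᶜ).indicator (fun _ => M ^ 2) ω ∂P := by
      rw [integral_indicator hN]
      simp
    rw [e1]
    apply integral_mono
    · exact (integrable_const _).indicator hN
    · have : (fun ω => (X ω - M) ^ 2) = fun ω =>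
          ∑ i, ∑ j, (E i ∩ E j).indicator (fun _ => (1 : ℝ)) ω -
            2 * M * ∑ i, (E i).indicator (fun _ => (1 : ℝ)) ω + M ^ 2 := funext hXX
      rw [this]
      exact (i1.sub i2).add (integrable_const _)
    · intro ω
      by_cases hω : ω ∈ ⋂ i, (E i)ᶜ
      · simp only
        rw [indicator_of_mem hω]
        have : X ω = 0 := by
          apply Finset.sum_eq_zero
          intro i _
          exact indicator_of_notMem (mem_iInter.1 hω i) _
        rw [this]
        nlinarith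
      · simp only
        rw [indicator_of_notMem hω]
        positivity
  have h3 : P.real (⋂ i, (E i)ᶜ) * M * M ≤ 1 * M := by nlinarith
  exact le_of_mul_le_mul_right h3 hMpos

theorem pick_real (k d : ℕ) (h : k ≤ 2 * d) (T : Finset (Dir d)) (hT : T.card ≤ k) :
    ((pick k d h).toMeasure.real {N | T ⊆ N}) =
      ((2 * d - T.card).choose (k - T.card) : ℝ) / ((2 * d).choose k : ℝ) := by
  classical
  have hcard : (Finset.univ : Finset (Dir d)).card = 2 * d := by
    simp [mul_comm]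
  unfold Measure.real pick
  rw [PMF.toMeasure_uniformOfFinset_apply _ _ (by trivial)]
  have h1 : ∀ (inst : DecidablePred (fun x => x ∈ {N : Finset (Dir d) | T ⊆ N})),
      (@Finset.filter _ (fun x => x ∈ {N : Finset (Dir d) | T ⊆ N}) inst
      (Finset.powersetCard k (Finset.univ : Finset (Dir d)))).card =
        (2 * d - T.card).choose (k - T.card) := by
    intro inst
    have := Finset.card_filter_powersetCard_subset T (Finset.univ : Finset (Dir d)) k
      (Finset.subset_univ _) hT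
    rw [hcard] at this
    rw [← this]
    congr 1
    ext x
    simp only [Finset.mem_filter, mem_ofPred_eq]
  rw [Finset.card_powersetCard, hcard, h1, ENNReal.toReal_div]
  simp

theorem pick_one (d : ℕ) (hd : 1 ≤ d) (s : Dir d) :
    (pick d d (by omega)).toMeasure.real {N | s ∈ N} = 1 / 2 := by
  have h1 := pick_real d d (by omega) {s} (by simpa using hd)
  have h2 : {N : Finset (Dir d) | ({s} : Finset (Dir d)) ⊆ N} = {N | s ∈ N} := by
    ext N
    simp
  rw [h2] at h1
  rw [h1, Finset.card_singleton]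
  obtain ⟨e, rfl⟩ : ∃ e, d = e + 1 := ⟨d - 1, by omega⟩
  have h3 : 2 * (e + 1) - 1 = 2 * e + 1 := by omega
  have h4 : e + 1 - 1 = e := by omega
  rw [h3, h4]
  have h5 := Nat.add_one_mul_choose_eq (2 * e + 1) e
  have h6 : (0 : ℝ) < ((2 * (e + 1)).choose (e + 1) : ℝ) := by
    exact_mod_cast Nat.choose_pos (by omega)
  rw [div_eq_iff h6.ne']
  have h7 : ((2 * e + 2 : ℕ) : ℝ) * ((2 * e + 1).choose e : ℝ) =
      ((2 * (e + 1)).choose (e + 1) : ℝ) * ((e + 1 : ℕ) : ℝ) := by
    have : 2 * e + 1 + 1 = 2 * (e + 1) := by omega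
    rw [this] at h5
    have h8 : 2 * e + 2 = 2 * (e + 1) := by ring
    rw [h8]
    exact_mod_cast h5
  push_cast at h7
  have h9 : (0 : ℝ) < (e : ℝ) + 1 := by positivity
  nlinarith

theorem pick_two (d : ℕ) (hd : 2 ≤ d) {s t : Dir d} (hst : s ≠ t) :
    (pick d d (by omega)).toMeasure.real {N | s ∈ N ∧ t ∈ N} =
      ((d : ℝ) - 1) / (2 * (2 * d - 1)) := by
  classical
  have hc : ({s, t} : Finset (Dir d)).card = 2 := Finset.card_pair hst
  have h1 := pick_real d d (by omega) {s, t} (by rw [hc]; exact hd)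
  have h2 : {N : Finset (Dir d) | ({s, t} : Finset (Dir d)) ⊆ N} = {N | s ∈ N ∧ t ∈ N} := by
    ext N
    simp [Finset.insert_subset_iff]
  rw [h2, hc] at h1
  rw [h1]
  obtain ⟨e, rfl⟩ : ∃ e, d = e + 2 := ⟨d - 2, by omega⟩
  have h3 : 2 * (e + 2) - 2 = 2 * e + 2 := by omega
  have h4 : e + 2 - 2 = e := by omega
  rw [h3, h4]
  have h5 := Nat.add_one_mul_choose_eq (2 * e + 2) e
  have h5' := Nat.add_one_mul_choose_eq (2 * e + 3) (e + 1)
  have h6 : (0 : ℝ) < ((2 * (e + 2)).choose (e + 2) : ℝ) := by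
    exact_mod_cast Nat.choose_pos (by omega)
  rw [div_eq_iff h6.ne']
  have h7 : ((2 * e + 3 : ℕ) : ℝ) * ((2 * e + 2).choose e : ℝ) =
      ((2 * e + 3).choose (e + 1) : ℝ) * ((e + 1 : ℕ) : ℝ) := by
    exact_mod_cast h5
  have h8 : ((2 * e + 4 : ℕ) : ℝ) * ((2 * e + 3).choose (e + 1) : ℝ) =
      ((2 * (e + 2)).choose (e + 2) : ℝ) * ((e + 2 : ℕ) : ℝ) := by
    have : 2 * e + 3 + 1 = 2 * (e + 2) := by omega
    rw [this] at h5'
    have h9 : 2 * e + 4 = 2 * (e + 2) := by ring
    rw [h9]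
    exact_mod_cast h5'
  push_cast at h7 h8
  push_cast
  have h9 : (0 : ℝ) < (e : ℝ) + 2 := by positivity
  have h10 : (0 : ℝ) < 2 * (2 * ((e : ℝ) + 2) - 1) := by nlinarith
  rw [div_mul_eq_mul_div, eq_div_iff h10.ne']
  -- from h8: 2 * choose = C
  have h11 : 2 * ((2 * e + 3).choose (e + 1) : ℝ) = ((2 * (e + 2)).choose (e + 2) : ℝ) := by
    have : ((e : ℝ) + 2) * (2 * ((2 * e + 3).choose (e + 1) : ℝ)) =
        ((e : ℝ) + 2) * ((2 * (e + 2)).choose (e + 2) : ℝ) := by linarith
    exact mul_left_cancel₀ h9.ne' this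
  rw [← h11]
  linarith

end Pool.Agent.R957.BnG
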